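import Mathlib
import Pool.Agent.Y293.FA.Base

/-!
# The perturbation estimate for averaged densities
-/

namespace Pool.Agent.Y370.FA

open MeasureTheory Set Filter Topology Pool.Agent.Y293.FA
open scoped ENNReal

theorem volume_xor_le (x y d : ℝ) :
    volume (symmDiff {t : ℝ | |x - t| ≤ d / 2} {t : ℝ | |y - t| ≤ d / 2}) ≤
      ENNReal.ofReal (2 * |x - y|) := by
  have h1 : symmDiff {t : ℝ | |x - t| ≤ d / 2} {t : ℝ | |y - t| ≤ d / 2} ⊆
      uIcc (x - d / 2) (y - d / 2) ∪ uIcc (x + d / 2) (y + d / 2) := by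
    intro t ht
    rw [mem_symmDiff] at ht
    simp only [mem_ofPred_eq] at ht
    rw [mem_union, mem_uIcc, mem_uIcc]
    rcases ht with ⟨h1, h2⟩ | ⟨h1, h2⟩
    · rw [abs_le] at h1
      rw [abs_le, not_and_or, not_le, not_le] at h2
      rcases h2 with h2 | h2
      · right; right
        constructor <;> linarith [h1.1, h1.2]
      · left; left
        constructor <;> linarith [h1.1, h1.2]
    · rw [abs_le] at h1
      rw [abs_le, not_and_or, not_le, not_le] at h2
      rcases h2 with h2 | h2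
      · right; left
        constructor <;> linarith [h1.1, h1.2]
      · left; right
        constructor <;> linarith [h1.1, h1.2]
  refine (measure_mono h1).trans ((measure_union_le _ _).trans ?_)
  rw [Real.volume_interval, Real.volume_interval, ← ENNReal.ofReal_add (abs_nonneg _) (abs_nonneg _)]
  apply ENNReal.ofReal_le_ofReal
  have e1 : y - d / 2 - (x - d / 2) = -(x - y) := by ring
  have e2 : y + d / 2 - (x + d / 2) = -(x - y) := by ring
  rw [e1, e2, abs_neg]
  linarith

theorem sq_diff_le (μ : Measure ℂ) [IsProbabilityMeasure μ] {g g' : ℂ → ℝ} (hg : Measurable g)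
    (hg' : Measurable g') {h : ℝ} (hh : ∀ᵐ z ∂μ, |g z - g' z| ≤ h) {d : ℝ} (hd : 0 < d) :
    ∫ t, (av d (μ.map g) t - av d (μ.map g') t) ^ 2 ≤ 2 * h / d ^ 2 := by
  have hmA : MeasurableSet {p : ℝ × ℂ | |g p.2 - p.1| ≤ d / 2} :=
    measurableSet_le (by fun_prop) (by fun_prop)
  have hmB : MeasurableSet {p : ℝ × ℂ | |g' p.2 - p.1| ≤ d / 2} :=
    measurableSet_le (by fun_prop) (by fun_prop)
  set S : Set (ℝ × ℂ) := symmDiff {p : ℝ × ℂ | |g p.2 - p.1| ≤ d / 2}
    {p : ℝ × ℂ | |g' p.2 - p.1| ≤ d / 2} with hS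
  have hmS : MeasurableSet S := hmA.symmDiff hmB
  have h0 : 0 ≤ h := by
    obtain ⟨z, hz⟩ := hh.exists
    exact (abs_nonneg _).trans hz
  -- pointwise bound
  have hpt : ∀ t : ℝ, ENNReal.ofReal ((av d (μ.map g) t - av d (μ.map g') t) ^ 2) ≤
      ENNReal.ofReal ((d ^ 2)⁻¹) * μ (Prod.mk t ⁻¹' S) := by
    intro t
    rw [av_map μ hg, av_map μ hg', ← mul_sub, mul_pow]
    have h1 : |μ.real {z | |g z - t| ≤ d / 2} - μ.real {z | |g' z - t| ≤ d / 2}| ≤
        μ.real (Prod.mk t ⁻¹' S) := by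
      have hA : MeasurableSet {z : ℂ | |g z - t| ≤ d / 2} :=
        measurableSet_le (by fun_prop) (by fun_prop)
      have hB : MeasurableSet {z : ℂ | |g' z - t| ≤ d / 2} :=
        measurableSet_le (by fun_prop) (by fun_prop)
      exact abs_measureReal_sub_le_measureReal_symmDiff' hA.nullMeasurableSet
        hB.nullMeasurableSet (measure_ne_top _ _) (measure_ne_top _ _)
    have h2 : (μ.real {z | |g z - t| ≤ d / 2} - μ.real {z | |g' z - t| ≤ d / 2}) ^ 2 ≤
        μ.real (Prod.mk t ⁻¹' S) := by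
      rw [← sq_abs]
      have h3 : μ.real (Prod.mk t ⁻¹' S) ≤ 1 := measureReal_le_one
      nlinarith [abs_nonneg (μ.real {z | |g z - t| ≤ d / 2} - μ.real {z | |g' z - t| ≤ d / 2}),
        measureReal_nonneg (μ := μ) (s := Prod.mk t ⁻¹' S)]
    rw [ENNReal.ofReal_mul (by positivity), inv_pow]
    refine mul_le_mul_right ?_ _
    calc ENNReal.ofReal ((μ.real {z | |g z - t| ≤ d / 2} - μ.real {z | |g' z - t| ≤ d / 2}) ^ 2)
        ≤ ENNReal.ofReal (μ.real (Prod.mk t ⁻¹' S)) := ENNReal.ofReal_le_ofReal h2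
      _ = μ (Prod.mk t ⁻¹' S) := ofReal_measureReal
  -- Fubini
  have hfub : ∫⁻ t : ℝ, μ (Prod.mk t ⁻¹' S) ≤ ENNReal.ofReal (2 * h) := by
    have e1 : ∫⁻ t : ℝ, μ (Prod.mk t ⁻¹' S) = ((volume : Measure ℝ).prod μ) S :=
      (Measure.prod_apply hmS).symm
    have e2 : ((volume : Measure ℝ).prod μ) S = ∫⁻ z, volume ((fun t => (t, z)) ⁻¹' S) ∂μ :=
      Measure.prod_apply_symm hmS
    rw [e1, e2]
    calc ∫⁻ z, volume ((fun t => (t, z)) ⁻¹' S) ∂μ ≤ ∫⁻ _, ENNReal.ofReal (2 * h) ∂μ := by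
          refine lintegral_mono_ae (hh.mono fun z hz => ?_)
          have h1 : (fun t => (t, z)) ⁻¹' S =
              symmDiff {t : ℝ | |g z - t| ≤ d / 2} {t : ℝ | |g' z - t| ≤ d / 2} := rfl
          rw [h1]
          exact (volume_xor_le _ _ _).trans (ENNReal.ofReal_le_ofReal (by linarith))
      _ = ENNReal.ofReal (2 * h) := by simp
  have hm1 : AEStronglyMeasurable (fun t => (av d (μ.map g) t - av d (μ.map g') t) ^ 2)
      volume := (((measurable_av d (μ.map g)).sub (measurable_av d (μ.map g'))).pow_const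
        2).aestronglyMeasurable
  rw [integral_eq_lintegral_of_nonneg_ae (ae_of_all _ fun t => sq_nonneg _) hm1]
  refine ENNReal.toReal_le_of_le_ofReal (by positivity) ?_
  calc ∫⁻ t, ENNReal.ofReal ((av d (μ.map g) t - av d (μ.map g') t) ^ 2)
      ≤ ∫⁻ t, ENNReal.ofReal ((d ^ 2)⁻¹) * μ (Prod.mk t ⁻¹' S) := lintegral_mono hpt
    _ = ENNReal.ofReal ((d ^ 2)⁻¹) * ∫⁻ t, μ (Prod.mk t ⁻¹' S) :=
        lintegral_const_mul _ (measurable_measure_prodMk_left hmS)
    _ ≤ ENNReal.ofReal ((d ^ 2)⁻¹) * ENNReal.ofReal (2 * h) := by gcongr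
    _ = ENNReal.ofReal (2 * h / d ^ 2) := by
        rw [← ENNReal.ofReal_mul (by positivity)]
        congr 1
        ring

theorem pert : S_PERT := by
  intro μ _ g g' hg hg' h hh a b ha hab
  have hb : 0 < b := ha.trans_le hab
  have : IsProbabilityMeasure (μ.map g) := Measure.isProbabilityMeasure_map hg.aemeasurable
  have : IsProbabilityMeasure (μ.map g') := Measure.isProbabilityMeasure_map hg'.aemeasurable
  have h0 : 0 ≤ h := by
    obtain ⟨z, hz⟩ := hh.exists
    exact (abs_nonneg _).trans hz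
  have h1 := sq_diff_le μ hg hg' hh ha
  have h2 := sq_diff_le μ hg hg' hh hb
  have i1 := integrable_sub_sq ha hb (μ.map g) (μ.map g)
  have i2 := integrable_sub_sq ha hb (μ.map g') (μ.map g')
  have i3 := integrable_sub_sq ha ha (μ.map g) (μ.map g')
  have i4 := integrable_sub_sq hb hb (μ.map g) (μ.map g')
  have key : dd a b (μ.map g) ≤ 3 * dd a b (μ.map g') +
      (3 * (∫ t, (av a (μ.map g) t - av a (μ.map g') t) ^ 2) +
        3 * ∫ t, (av b (μ.map g) t - av b (μ.map g') t) ^ 2) := by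
    unfold dd
    have e1 : (3 * ∫ t, (av a (μ.map g') t - av b (μ.map g') t) ^ 2) +
      (3 * (∫ t, (av a (μ.map g) t - av a (μ.map g') t) ^ 2) +
        3 * ∫ t, (av b (μ.map g) t - av b (μ.map g') t) ^ 2) =
        ∫ t, (3 * (av a (μ.map g') t - av b (μ.map g') t) ^ 2 +
          (3 * (av a (μ.map g) t - av a (μ.map g') t) ^ 2 +
            3 * (av b (μ.map g) t - av b (μ.map g') t) ^ 2)) := by
      have i34 : Integrable (fun t => 3 * (av a (μ.map g) t - av a (μ.map g') t) ^ 2 +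
            3 * (av b (μ.map g) t - av b (μ.map g') t) ^ 2) :=
        (i3.const_mul 3).add (i4.const_mul 3)
      rw [← integral_const_mul, ← integral_const_mul, ← integral_const_mul,
        ← integral_add (i3.const_mul 3) (i4.const_mul 3),
        ← integral_add (i2.const_mul 3) i34]
    rw [e1]
    refine integral_mono i1 ((i2.const_mul 3).add ((i3.const_mul 3).add (i4.const_mul 3)))
      fun t => ?_
    simp only []
    nlinarith [sq_nonneg ((av a (μ.map g') t - av b (μ.map g') t) -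
      (av a (μ.map g) t - av a (μ.map g') t)),
      sq_nonneg ((av a (μ.map g') t - av b (μ.map g') t) +
        (av b (μ.map g) t - av b (μ.map g') t)),
      sq_nonneg ((av a (μ.map g) t - av a (μ.map g') t) +
        (av b (μ.map g) t - av b (μ.map g') t))]
  have h3 : 2 * h / b ^ 2 ≤ 2 * h / a ^ 2 := by gcongr
  have h4 : 12 * h / a ^ 2 = 3 * (2 * h / a ^ 2) + 3 * (2 * h / a ^ 2) := by ring
  rw [h4]
  linarith

end Pool.Agent.Y370.FA
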