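import Mathlib
import Pool.Agent.Y293.FA.Base

/-!
# Differences of independent points
-/

namespace Pool.Agent.Y370.FA

open MeasureTheory Set Filter Topology Pool.Agent.Y293.FA
open scoped ENNReal

theorem measurable_pr (θ : ℝ) : Measurable (pr θ) := by
  unfold pr
  fun_prop

theorem isProb_dif (μ : Measure ℂ) [IsProbabilityMeasure μ] : IsProbabilityMeasure (dif μ) :=
  Measure.isProbabilityMeasure_map (by fun_prop)

theorem map_dif (μ : Measure ℂ) [IsProbabilityMeasure μ] (θ : ℝ) :
    (dif μ).map (pr θ) = ((μ.map (pr θ)).prod (μ.map (pr θ))).map fun p : ℝ × ℝ => p.1 - p.2 := by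
  unfold dif
  rw [Measure.map_prod_map _ _ (measurable_pr θ) (measurable_pr θ),
    Measure.map_map (measurable_pr θ) (by fun_prop),
    Measure.map_map (by fun_prop) ((measurable_pr θ).prodMap (measurable_pr θ))]
  congr 1
  funext p
  simp only [Function.comp_apply, pr, Prod.map, Complex.sub_re, Complex.sub_im]
  ring

/-- The average density of the law of a difference. -/
theorem av_sub (m : Measure ℝ) [IsProbabilityMeasure m] (d t : ℝ) :
    av d ((m.prod m).map fun p : ℝ × ℝ => p.1 - p.2) t = ∫ v, av d m (t + v) ∂m := by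
  have hm : MeasurableSet {p : ℝ × ℝ | |p.1 - p.2 - t| ≤ d / 2} :=
    measurableSet_le (by fun_prop) (by fun_prop)
  rw [av_map _ (by fun_prop : Measurable fun p : ℝ × ℝ => p.1 - p.2)]
  have h1 : (m.prod m) {p : ℝ × ℝ | |p.1 - p.2 - t| ≤ d / 2} =
      ∫⁻ v, m (Icc (t + v - d / 2) (t + v + d / 2)) ∂m := by
    rw [Measure.prod_apply_symm hm]
    refine lintegral_congr fun v => ?_
    congr 1
    ext x
    rw [mem_Icc_av, mem_preimage, mem_ofPred_eq]
    have : x - v - t = x - (t + v) := by ring
    rw [this]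
  have h2 : ∫ v, av d m (t + v) ∂m =
      d⁻¹ * (∫⁻ v, m (Icc (t + v - d / 2) (t + v + d / 2)) ∂m).toReal := by
    unfold av Measure.real
    rw [integral_const_mul]
    congr 1
    refine integral_toReal ?_ ?_
    · exact ((measurable_mass d m).comp (measurable_const.add measurable_id)).aemeasurable
    · exact ae_of_all _ fun v => measure_lt_top _ _
  rw [h2, Measure.real, h1]

theorem conv : S_CONV := by
  intro μ _ θ a b ha hb
  set m := μ.map (pr θ) with hm
  have : IsProbabilityMeasure m :=
    Measure.isProbabilityMeasure_map (measurable_pr θ).aemeasurable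
  rw [map_dif]
  set F : ℝ → ℝ := fun t => av a m t - av b m t with hF
  have hFm : Measurable F := (measurable_av a m).sub (measurable_av b m)
  have hFI : Integrable fun t => F t ^ 2 := integrable_sub_sq ha hb m m
  have hFb : ∀ t, |F t| ≤ a⁻¹ + b⁻¹ := by
    intro t
    have h1 := av_nonneg ha m t
    have h2 := av_nonneg hb m t
    have h3 := av_le ha m t
    have h4 := av_le hb m t
    simp only [probReal_univ, mul_one] at h3 h4
    rw [abs_le]
    constructor <;> simp only [hF] <;> linarith
  have hint : ∀ t, Integrable (fun v => F (t + v)) m := by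
    intro t
    refine Integrable.of_bound (hFm.comp (measurable_const.add
      measurable_id)).aestronglyMeasurable (a⁻¹ + b⁻¹) (ae_of_all _ fun v => ?_)
    exact hFb _
  have hint2 : ∀ t, Integrable (fun v => F (t + v) ^ 2) m := by
    intro t
    refine Integrable.of_bound ((hFm.comp (measurable_const.add
      measurable_id)).pow_const 2).aestronglyMeasurable ((a⁻¹ + b⁻¹) ^ 2)
      (ae_of_all _ fun v => ?_)
    rw [Real.norm_eq_abs, abs_pow]
    exact pow_le_pow_left₀ (abs_nonneg _) (hFb _) 2
  have hinta : ∀ d, 0 < d → ∀ t, Integrable (fun v => av d m (t + v)) m := by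
    intro d hd t
    refine Integrable.of_bound ((measurable_av d m).comp (measurable_const.add
      measurable_id)).aestronglyMeasurable d⁻¹ (ae_of_all _ fun v => ?_)
    rw [Real.norm_of_nonneg (av_nonneg hd _ _)]
    have h3 := av_le hd m (t + v)
    simpa only [probReal_univ, mul_one] using h3
  have hpt : ∀ t, (av a ((m.prod m).map fun p : ℝ × ℝ => p.1 - p.2) t -
      av b ((m.prod m).map fun p : ℝ × ℝ => p.1 - p.2) t) ^ 2 ≤ ∫ v, F (t + v) ^ 2 ∂m := by
    intro t
    rw [av_sub m, av_sub m, ← integral_sub (hinta a ha t) (hinta b hb t)]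
    have h1 : ∫ v, (F (t + v) - ∫ w, F (t + w) ∂m) ^ 2 ∂m =
        ∫ v, F (t + v) ^ 2 ∂m - (∫ w, F (t + w) ∂m) ^ 2 := by
      set c := ∫ w, F (t + w) ∂m with hc
      have e1 : ∀ v, (F (t + v) - c) ^ 2 = F (t + v) ^ 2 - 2 * c * F (t + v) + c ^ 2 := by
        intro v; ring
      simp only [e1]
      have i1 : Integrable (fun v => F (t + v) ^ 2 - 2 * c * F (t + v)) m :=
        (hint2 t).sub ((hint t).const_mul (2 * c))
      rw [integral_add i1 (integrable_const _),
        integral_sub (hint2 t) ((hint t).const_mul (2 * c)), integral_const_mul, ← hc,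
        integral_const, probReal_univ, one_smul]
      ring
    have h2 : 0 ≤ ∫ v, (F (t + v) - ∫ w, F (t + w) ∂m) ^ 2 ∂m :=
      integral_nonneg fun _ => sq_nonneg _
    rw [h1] at h2
    simp only [hF] at h2 ⊢
    linarith
  -- Fubini
  have hjm : Measurable fun p : ℝ × ℝ => ENNReal.ofReal (F (p.1 + p.2) ^ 2) :=
    (((hFm.comp (measurable_fst.add measurable_snd)).pow_const 2)).ennreal_ofReal
  have hprob : IsProbabilityMeasure ((m.prod m).map fun p : ℝ × ℝ => p.1 - p.2) :=
    Measure.isProbabilityMeasure_map (by fun_prop)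
  unfold dd
  rw [← hm]
  have hms : AEStronglyMeasurable (fun t => (av a ((m.prod m).map fun p : ℝ × ℝ => p.1 - p.2) t -
      av b ((m.prod m).map fun p : ℝ × ℝ => p.1 - p.2) t) ^ 2) volume :=
    (((measurable_av a _).sub (measurable_av b _)).pow_const 2).aestronglyMeasurable
  rw [integral_eq_lintegral_of_nonneg_ae (ae_of_all _ fun t => sq_nonneg _) hms]
  refine ENNReal.toReal_le_of_le_ofReal (integral_nonneg fun _ => sq_nonneg _) ?_
  calc ∫⁻ t, ENNReal.ofReal ((av a ((m.prod m).map fun p : ℝ × ℝ => p.1 - p.2) t -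
      av b ((m.prod m).map fun p : ℝ × ℝ => p.1 - p.2) t) ^ 2)
      ≤ ∫⁻ t, ∫⁻ v, ENNReal.ofReal (F (t + v) ^ 2) ∂m := by
        refine lintegral_mono fun t => ?_
        refine (ENNReal.ofReal_le_ofReal (hpt t)).trans ?_
        rw [ofReal_integral_eq_lintegral_ofReal (hint2 t) (ae_of_all _ fun v => sq_nonneg _)]
    _ = ∫⁻ v, (∫⁻ t, ENNReal.ofReal (F (t + v) ^ 2)) ∂m :=
        lintegral_lintegral_swap hjm.aemeasurable
    _ = ∫⁻ _, ENNReal.ofReal (∫ t, F t ^ 2) ∂m := by
        refine lintegral_congr fun v => ?_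
        rw [lintegral_add_right_eq_self (fun t => ENNReal.ofReal (F t ^ 2)) v,
          ofReal_integral_eq_lintegral_ofReal hFI (ae_of_all _ fun t => sq_nonneg _)]
    _ = ENNReal.ofReal (∫ t, F t ^ 2) := by simp

end Pool.Agent.Y370.FA
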